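import Mathlib
import Pool.Agent.Q90.SF.Stm

set_option autoImplicit false

open MeasureTheory Metric Set
open scoped Real

namespace Q90.SF.P296

theorem dfm_homeo {X : ℂ → ℂ} {J : Set ℝ} (h : LipDef X J) {t : ℝ} (ht : t ∈ J) :
    ∃ F : ℂ ≃ₜ ℂ, ∀ x, F x = dfm X t x := by
  obtain ⟨c, hc, hanti⟩ := h.anti t ht
  obtain ⟨L, hL⟩ := h.lip
  have h1 : AntilipschitzWith (Real.toNNReal c⁻¹) (dfm X t) := by
    apply AntilipschitzWith.of_le_mul_dist
    intro x y
    rw [dist_eq_norm, dist_eq_norm, Real.coe_toNNReal _ (inv_pos.2 hc).le, ← div_eq_inv_mul,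
      le_div_iff₀ hc, mul_comm]
    exact hanti x y
  have h2 : Continuous (dfm X t) := by
    unfold dfm
    exact continuous_id.add (hL.continuous.const_smul t)
  let e := Equiv.ofBijective (dfm X t) ⟨h1.injective, h.surj t ht⟩
  have h3 : LipschitzWith (Real.toNNReal c⁻¹) e.symm :=
    h1.to_rightInverse (fun y => Equiv.ofBijective_apply_symm_apply _ _ y)
  exact ⟨⟨e, h2, h3.continuous⟩, fun x => rfl⟩

theorem near_frontier {D : Set ℂ} {a b : ℂ} {δ : ℝ} (ha : a ∈ D) (hb : b ∉ D)
    (hab : ‖a - b‖ ≤ δ) : ∃ z ∈ frontier D, ‖a - z‖ ≤ δ := by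
  obtain ⟨z, hz, hz2⟩ := exists_mem_frontier_infDist_compl_eq_dist (x := a) (s := D) ha
    (fun h => hb (h ▸ mem_univ b))
  refine ⟨z, hz, ?_⟩
  rw [← dist_eq_norm, ← hz2]
  exact (infDist_le_dist_of_mem (show b ∈ Dᶜ from hb)).trans (by rwa [dist_eq_norm])

theorem lcl : Q90.SF.S_lcl := by
  intro hlcv X J Ω hX hΩ hb hne hmink
  have hopen : ∀ t ∈ J, IsOpen (dfm X t '' Ω) := by
    intro t ht
    obtain ⟨F, hF⟩ := dfm_homeo hX ht
    have : dfm X t '' Ω = F '' Ω := by
      apply image_congr
      intro x _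
      exact (hF x).symm
    rw [this]
    exact F.isOpenMap _ hΩ
  obtain ⟨L, hL⟩ := hX.lip
  set B : ℝ := ‖X 0‖ + L with hB
  have hB0 : 0 ≤ B := by positivity
  have hXb : ∀ x, ‖X x‖ ≤ B * (1 + ‖x‖) := by
    intro x
    have h1 := hL.dist_le_mul x 0
    rw [dist_eq_norm, dist_zero_right] at h1
    have h2 : ‖X x‖ ≤ ‖X x - X 0‖ + ‖X 0‖ := by
      have := norm_add_le (X x - X 0) (X 0)
      rwa [sub_add_cancel] at this
    have h3 := mul_nonneg (norm_nonneg (X 0)) (norm_nonneg x)
    have h4 : (0 : ℝ) ≤ L := L.2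
    rw [hB]
    nlinarith
  have hdb : ∀ (t : ℝ) (x : ℂ), ‖dfm X t x‖ ≤ (1 + |t| * B) * (1 + ‖x‖) := by
    intro t x
    have h1 := norm_add_le x (t • X x)
    rw [norm_smul, Real.norm_eq_abs] at h1
    have h2 := mul_le_mul_of_nonneg_left (hXb x) (abs_nonneg t)
    have h3 := norm_nonneg x
    unfold dfm
    nlinarith
  have hdlip : ∀ (t : ℝ) (x y : ℂ), ‖dfm X t x - dfm X t y‖ ≤ (1 + |t| * L) * ‖x - y‖ := by
    intro s x y
    have e : dfm X s x - dfm X s y = (x - y) + s • (X x - X y) := by
      simp only [dfm, smul_sub]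
      ring
    rw [e]
    refine (norm_add_le _ _).trans ?_
    rw [norm_smul, Real.norm_eq_abs]
    have h1 := hL.dist_le_mul x y
    rw [dist_eq_norm, dist_eq_norm] at h1
    have := mul_le_mul_of_nonneg_left h1 (abs_nonneg s)
    linarith
  have hbd : ∀ t ∈ J, ∀ S : Set ℂ, Bornology.IsBounded S →
      Bornology.IsBounded (dfm X t '' S) := by
    intro t ht S hS
    have : LipschitzWith (Real.toNNReal (1 + |t| * L)) (dfm X t) := by
      apply LipschitzWith.of_dist_le_mul
      intro x y
      rw [dist_eq_norm, dist_eq_norm, Real.coe_toNNReal _ (by positivity)]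
      exact hdlip t x y
    exact this.isBounded_image hS
  refine ⟨fun t ht => (hopen t ht).measurableSet, fun t ht => ?_, fun t ht => ?_⟩
  · have h1 : 0 < volume (dfm X t '' Ω) := (hopen t ht).measure_pos volume (hne.image _)
    exact ENNReal.toReal_pos h1.ne' (hbd t ht Ω hb).measure_lt_top.ne
  -- closeness
  obtain ⟨a, b, M, ha, hbm, hab, hcv⟩ := hlcv X J hX
  obtain ⟨c, hc, hanti⟩ := hX.anti t ht
  obtain ⟨F, hF⟩ := dfm_homeo hX ht
  obtain ⟨CΩ, hCΩ⟩ := hmink
  obtain ⟨R0, hR0p, hR0⟩ := hb.exists_pos_norm_le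
  set D := dfm X t '' Ω with hD
  set M0 : ℝ := 1 + (|t| + 1) * B with hM0
  have hM01 : 1 ≤ M0 := by
    have : 0 ≤ (|t| + 1) * B := by positivity
    linarith
  have hM0B : B ≤ M0 := by
    have : 0 ≤ |t| * B := by positivity
    rw [hM0]; linarith
  set RD : ℝ := (1 + |t| * B) * (1 + R0) with hRD
  have hRD0 : 0 < RD := by positivity
  have hDb : ∀ y ∈ D, ‖y‖ ≤ RD := by
    rintro y ⟨x, hx, rfl⟩
    refine (hdb t x).trans ?_
    rw [hRD]
    have := hR0 x hx
    gcongr
  set R1 : ℝ := 2 * (RD + ‖dfm X t 0‖) / c + 1 with hR1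
  set R : ℝ := max R0 R1 with hR
  have hRp : 0 < R := lt_of_lt_of_le hR0p (le_max_left _ _)
  set K : ℝ := 1 + |t| * M + t ^ 2 * M with hK
  have hM0' : 0 ≤ M := (abs_nonneg _).trans (hab 0).1
  have hKp : 0 < K := by positivity
  set C1 : ℝ := K * (|CΩ| * (3 * (M0 * (1 + R)) / c)) with hC1
  have hC10 : 0 ≤ C1 := by positivity
  set ε : ℝ := min (1 / 2) (c / (6 * M0 * (1 + R))) with hε
  have hεp : 0 < ε := by
    apply lt_min (by norm_num)
    positivity
  refine ⟨RD + c + 1 + C1, ε, hεp, fun t' ht' htt ρ hρ => ?_⟩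
  set τ : ℝ := |t' - t| + |ρ - 1| with hτ
  have hτ0 : 0 ≤ τ := by positivity
  have hτε : τ < 2 * ε := by linarith
  have hε1 : ε ≤ 1 / 2 := min_le_left _ _
  have hε2 : ε ≤ c / (6 * M0 * (1 + R)) := min_le_right _ _
  have hτ1 : τ * (3 * M0 * (1 + R)) ≤ c := by
    rw [le_div_iff₀ (by positivity)] at hε2
    have : 0 < 3 * M0 * (1 + R) := by positivity
    nlinarith
  have hρ0 : 0 < ρ := by
    have := (abs_lt.1 hρ).1
    linarith
  have hΦ : ∀ x : ℂ, ‖ρ • dfm X t' x - dfm X t x‖ ≤ M0 * τ * (1 + ‖x‖) := by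
    intro x
    have e : ρ • dfm X t' x - dfm X t x = (ρ - 1) • dfm X t' x + (t' - t) • X x := by
      simp only [dfm, Complex.real_smul]
      push_cast
      ring
    rw [e]
    refine (norm_add_le _ _).trans ?_
    rw [norm_smul, norm_smul, Real.norm_eq_abs, Real.norm_eq_abs]
    have h1 : ‖dfm X t' x‖ ≤ M0 * (1 + ‖x‖) := by
      refine (hdb t' x).trans ?_
      have h2 : |t'| ≤ |t| + 1 := by
        have h3 : |t'| ≤ |t| + |t' - t| := by
          have := abs_add_le t (t' - t)
          rwa [add_sub_cancel] at this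
        linarith
      have h4 := mul_le_mul_of_nonneg_right h2 hB0
      have h5 : 0 ≤ 1 + ‖x‖ := by positivity
      rw [hM0]
      nlinarith
    have h2 : ‖X x‖ ≤ M0 * (1 + ‖x‖) := (hXb x).trans (by gcongr)
    have h3 := mul_le_mul_of_nonneg_left h1 (abs_nonneg (ρ - 1))
    have h4 := mul_le_mul_of_nonneg_left h2 (abs_nonneg (t' - t))
    rw [hτ]
    linarith
  have hscl : ∀ y, y ∈ scl ρ (dfm X t' '' Ω) ↔ ∃ x ∈ Ω, ρ • dfm X t' x = y := by
    intro y
    constructor
    · rintro ⟨x, hx, hxy⟩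
      refine ⟨x, hx, ?_⟩
      rw [hxy, smul_smul, mul_inv_cancel₀ hρ0.ne', one_smul]
    · rintro ⟨x, hx, rfl⟩
      refine ⟨x, hx, ?_⟩
      rw [smul_smul, inv_mul_cancel₀ hρ0.ne', one_smul]
  have hMτ : M0 * τ * (1 + R) ≤ c / 3 := by linarith
  constructor
  · intro y hy
    obtain ⟨x, hx, rfl⟩ := (hscl y).1 hy
    rw [mem_ball_zero_iff]
    have h1 := hΦ x
    have h2 := hDb _ (mem_image_of_mem (dfm X t) hx)
    have h3 : ‖ρ • dfm X t' x‖ ≤ ‖ρ • dfm X t' x - dfm X t x‖ + ‖dfm X t x‖ := by
      have := norm_add_le (ρ • dfm X t' x - dfm X t x) (dfm X t x)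
      rwa [sub_add_cancel] at this
    have h4 : M0 * τ * (1 + ‖x‖) ≤ M0 * τ * (1 + R) := by
      have : ‖x‖ ≤ R := (hR0 x hx).trans (le_max_left _ _)
      gcongr
    linarith
  · rcases hτ0.eq_or_lt with h0 | hτp
    · have h1 : |t' - t| = 0 := le_antisymm (by have := abs_nonneg (ρ - 1); linarith) (abs_nonneg _)
      have h2 : |ρ - 1| = 0 := le_antisymm (by have := abs_nonneg (t' - t); linarith) (abs_nonneg _)
      have h3 : t' = t := sub_eq_zero.1 (abs_eq_zero.1 h1)
      have h4 : ρ = 1 := sub_eq_zero.1 (abs_eq_zero.1 h2)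
      have h5 : scl ρ (dfm X t' '' Ω) = D := by
        rw [h3, h4]
        ext y
        simp [scl, hD]
      rw [h5, symmDiff_self, ← h0]
      simp
    · set δ : ℝ := M0 * τ * (1 + R) with hδ
      have hδp : 0 < δ := by positivity
      have hsub : symmDiff (scl ρ (dfm X t' '' Ω)) D ⊆ thickening (3 * δ) (frontier D) := by
        intro y hy
        rw [mem_thickening_iff]
        rcases hy with ⟨hy1, hy2⟩ | ⟨hy1, hy2⟩
        · obtain ⟨x, hx, rfl⟩ := (hscl y).1 hy1
          have h1 : ‖dfm X t x - ρ • dfm X t' x‖ ≤ δ := by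
            rw [norm_sub_rev]
            refine (hΦ x).trans ?_
            have : ‖x‖ ≤ R := (hR0 x hx).trans (le_max_left _ _)
            rw [hδ]
            gcongr
          obtain ⟨z, hz, hz2⟩ := near_frontier (mem_image_of_mem (dfm X t) hx) hy2 h1
          refine ⟨z, hz, ?_⟩
          rw [dist_eq_norm]
          have h3 : ‖ρ • dfm X t' x - z‖ ≤ ‖ρ • dfm X t' x - dfm X t x‖ + ‖dfm X t x - z‖ := by
            have := norm_add_le (ρ • dfm X t' x - dfm X t x) (dfm X t x - z)
            rwa [sub_add_sub_cancel] at this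
          rw [norm_sub_rev] at h1
          linarith
        · obtain ⟨x, hx⟩ := hX.surj t' ht' (ρ⁻¹ • y)
          have hxy : ρ • dfm X t' x = y := by
            rw [hx, smul_smul, mul_inv_cancel₀ hρ0.ne', one_smul]
          have hxΩ : x ∉ Ω := fun h => hy2 ((hscl y).2 ⟨x, h, hxy⟩)
          have hFx : dfm X t x ∉ D := by
            rintro ⟨x', hx', he⟩
            rw [← hF, ← hF] at he
            exact hxΩ (F.injective he ▸ hx')
          have h1 := hΦ x
          have h2 := hanti x 0
          rw [sub_zero] at h2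
          have h3 := hDb y hy1
          have h4 : ‖dfm X t x - dfm X t 0‖ ≤
              ‖ρ • dfm X t' x - dfm X t x‖ + ‖y‖ + ‖dfm X t 0‖ := by
            have e : dfm X t x - dfm X t 0 =
                -(ρ • dfm X t' x - dfm X t x) + y + -(dfm X t 0) := by
              rw [← hxy]; ring
            rw [e]
            refine (norm_add₃_le).trans ?_
            rw [norm_neg, norm_neg]
          have h5 : M0 * τ ≤ c / 3 := by
            have : M0 * τ * 1 ≤ M0 * τ * (1 + R) := by
              gcongr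
              linarith
            linarith
          have h6 : M0 * τ * (1 + ‖x‖) ≤ c / 3 * (1 + ‖x‖) := by gcongr
          have h7 : ‖x‖ ≤ R := by
            refine le_trans ?_ (le_max_right _ _)
            rw [hR1, ← sub_le_iff_le_add, le_div_iff₀ hc]
            have := norm_nonneg x
            nlinarith
          have h8 : ‖y - dfm X t x‖ ≤ δ := by
            rw [← hxy]
            refine h1.trans ?_
            rw [hδ]
            gcongr
          obtain ⟨z, hz, hz2⟩ := near_frontier hy1 hFx h8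
          refine ⟨z, hz, ?_⟩
          rw [dist_eq_norm]
          linarith
      have hfr : frontier D = dfm X t '' frontier Ω := by
        have e1 : ∀ S : Set ℂ, dfm X t '' S = F '' S := fun S =>
          image_congr fun x _ => (hF x).symm
        rw [hD, e1, e1, F.image_frontier]
      set S := thickening (3 * δ / c) (frontier Ω) with hS
      have hsub2 : thickening (3 * δ) (frontier D) ⊆ dfm X t '' S := by
        intro y hy
        rw [mem_thickening_iff, hfr] at hy
        obtain ⟨_, ⟨z, hz, rfl⟩, hyz⟩ := hy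
        obtain ⟨x, rfl⟩ := hX.surj t ht y
        refine ⟨x, ?_, rfl⟩
        rw [hS, mem_thickening_iff]
        refine ⟨z, hz, ?_⟩
        rw [dist_eq_norm] at hyz ⊢
        rw [lt_div_iff₀ hc, mul_comm]
        exact (hanti x z).trans_lt hyz
      have hSb : Bornology.IsBounded S := by
        apply Bornology.IsBounded.thickening
        exact hb.closure.subset frontier_subset_closure
      have hSv : volume.real S ≤ CΩ * (3 * δ / c) := by
        apply hCΩ
        · positivity
        · rw [div_le_one hc]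
          linarith
      have hSv2 : volume.real S ≤ |CΩ| * (3 * δ / c) := by
        refine hSv.trans ?_
        have := le_abs_self CΩ
        gcongr
      have hSm : MeasurableSet S := isOpen_thickening.measurableSet
      have h1 := hcv t ht S hSm (fun _ => 1)
      have h2 : volume.real (dfm X t '' S) ≤ K * volume.real S := by
        have h3 : ‖∫ x in dfm X t '' S, (1 : ℂ)‖ = volume.real (dfm X t '' S) := by
          rw [setIntegral_const, norm_smul, norm_one, mul_one, Real.norm_of_nonneg measureReal_nonneg]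
        rw [← h3, h1]
        apply norm_setIntegral_le_of_norm_le_const hSb.measure_lt_top
        intro x _
        rw [one_mul, Complex.norm_real, Real.norm_eq_abs]
        have h4 := abs_add_three 1 (t * a x) (t ^ 2 * b x)
        rw [abs_one, abs_mul, abs_mul, abs_of_nonneg (sq_nonneg t)] at h4
        have h5 := mul_le_mul_of_nonneg_left (hab x).1 (abs_nonneg t)
        have h6 := mul_le_mul_of_nonneg_left (hab x).2 (sq_nonneg t)
        rw [hK]
        linarith
      have h3 : volume.real (symmDiff (scl ρ (dfm X t' '' Ω)) D) ≤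
          volume.real (dfm X t '' S) :=
        measureReal_mono (hsub.trans hsub2) (hbd t ht S hSb).measure_lt_top.ne
      have h4 : K * volume.real S ≤ K * (|CΩ| * (3 * δ / c)) := by gcongr
      have h5 : K * (|CΩ| * (3 * δ / c)) = C1 * τ := by
        rw [hC1, hδ]
        ring
      have h6 : C1 * τ ≤ (RD + c + 1 + C1) * τ := by
        gcongr
        linarith
      linarith

end Q90.SF.P296

theorem Pool.Agent.Q296.SF.Lcl.lcl : Q90.SF.S_lcl := Q90.SF.P296.lcl
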