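import Mathlib
import Pool.Agent.Q90.SF.Stm

set_option autoImplicit false

open MeasureTheory Metric Set
open scoped Real

namespace Q90.SF.P296

/-- the homothetic image of `K` -/
def hom (p : ℂ) (K : Set ℂ) (c : ℝ) : Set ℂ := {x | p + c⁻¹ • (x - p) ∈ K}

theorem hom_open {p : ℂ} {K : Set ℂ} (hK : IsOpen K) (c : ℝ) : IsOpen (hom p K c) :=
  hK.preimage (by fun_prop)

theorem hom_eq {p : ℂ} {K : Set ℂ} {c : ℝ} (hc : 0 < c) :
    hom p K c = AffineMap.homothety p c '' K := by
  ext x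
  simp only [hom, mem_ofPred_eq, mem_image, AffineMap.homothety_apply, vsub_eq_sub, vadd_eq_add]
  constructor
  · intro h
    refine ⟨_, h, ?_⟩
    rw [add_sub_cancel_left, smul_smul, mul_inv_cancel₀ hc.ne', one_smul]
    ring
  · rintro ⟨y, hy, rfl⟩
    rw [add_sub_cancel_right, smul_smul, inv_mul_cancel₀ hc.ne', one_smul]
    simpa using hy

theorem hom_vol {p : ℂ} {K : Set ℂ} {c : ℝ} (hc : 0 < c) :
    volume.real (hom p K c) = c ^ 2 * volume.real K := by
  rw [hom_eq hc, Measure.real, Measure.real, Measure.addHaar_image_homothety,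
    ENNReal.toReal_mul, Complex.finrank_real_complex, ENNReal.toReal_ofReal (abs_nonneg _),
    abs_of_nonneg (by positivity)]

theorem hom_fin {p : ℂ} {K : Set ℂ} (hb : Bornology.IsBounded K) {c : ℝ} (hc : 0 < c) :
    volume (hom p K c) < ⊤ := by
  rw [hom_eq hc, Measure.addHaar_image_homothety]
  exact ENNReal.mul_lt_top ENNReal.ofReal_lt_top hb.measure_lt_top

theorem thick_sub {p : ℂ} {r : ℝ} {K : Set ℂ} (hc : Convex ℝ K) (hr : 0 < r)
    (hp : ball p r ⊆ K) {ε : ℝ} (hε : 0 < ε) :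
    thickening ε K ⊆ hom p K (1 + ε / r) := by
  intro x hx
  rw [mem_thickening_iff] at hx
  obtain ⟨k, hk, hxk⟩ := hx
  have h1 : p + (r / ε) • (x - k) ∈ K := by
    apply hp
    rw [mem_ball, dist_eq_norm, add_sub_cancel_left, norm_smul, Real.norm_of_nonneg (by positivity)]
    rw [dist_eq_norm] at hxk
    rw [div_mul_eq_mul_div, div_lt_iff₀ hε]
    exact mul_lt_mul_of_pos_left hxk hr
  have hq : 0 < 1 + ε / r := by positivity
  have h2 := hc hk h1 (a := (1 + ε / r)⁻¹) (b := (1 + ε / r)⁻¹ * (ε / r)) (by positivity)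
    (by positivity) (by field_simp)
  have e : (1 + ε / r)⁻¹ • k + ((1 + ε / r)⁻¹ * (ε / r)) • (p + (r / ε) • (x - k)) =
      p + (1 + ε / r)⁻¹ • (x - p) := by
    simp only [Complex.real_smul]
    have hq' : (1 + (ε : ℂ) / r) ≠ 0 := by exact_mod_cast hq.ne'
    have hr' : (r : ℂ) ≠ 0 := by exact_mod_cast hr.ne'
    have hε' : (ε : ℂ) ≠ 0 := by exact_mod_cast hε.ne'
    push_cast
    field_simp
    have hq2 : (r : ℂ) + ε ≠ 0 := by exact_mod_cast (by positivity : r + ε ≠ 0)
    field_simp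
    ring
  rw [e] at h2
  exact h2

theorem ball_sub {p : ℂ} {r : ℝ} {K : Set ℂ} (hc : Convex ℝ K) (hr : 0 < r)
    (hp : ball p r ⊆ K) {ε : ℝ} (hε : 0 < ε) (hεr : ε < r) {x : ℂ}
    (hx : x ∈ hom p K (1 - ε / r)) : ball x ε ⊆ K := by
  intro y hy
  have hx' : p + (1 - ε / r)⁻¹ • (x - p) ∈ K := hx
  have h1 : p + (r / ε) • (y - x) ∈ K := by
    apply hp
    rw [mem_ball, dist_eq_norm, add_sub_cancel_left, norm_smul, Real.norm_of_nonneg (by positivity)]
    rw [mem_ball, dist_eq_norm] at hy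
    rw [div_mul_eq_mul_div, div_lt_iff₀ hε]
    exact mul_lt_mul_of_pos_left hy hr
  have hq : 0 < 1 - ε / r := by
    rw [sub_pos, div_lt_one hr]; exact hεr
  have h2 := hc hx' h1 (a := 1 - ε / r) (b := ε / r) hq.le
    (by positivity) (by ring)
  have e : (1 - ε / r) • (p + (1 - ε / r)⁻¹ • (x - p)) + (ε / r) • (p + (r / ε) • (y - x)) = y := by
    rw [smul_add, smul_smul, mul_inv_cancel₀ hq.ne', one_smul, smul_add, smul_smul,
      div_mul_div_comm, mul_comm r ε, div_self (by positivity), one_smul, sub_smul, one_smul]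
    ring
  rw [e] at h2
  exact h2

theorem mnk : Q90.SF.S_mnk := by
  intro K hK hc hne hb
  obtain ⟨p, hp⟩ := hne
  obtain ⟨r, hr, hpr⟩ := Metric.isOpen_iff.1 hK p hp
  set A := volume.real K with hA
  have hA0 : 0 ≤ A := measureReal_nonneg
  have hsub : ∀ ε : ℝ, 0 < ε → thickening ε (frontier K) ⊆ hom p K (1 + ε / r) := by
    intro ε hε
    refine (thickening_subset_of_subset ε frontier_subset_closure).trans ?_
    rw [thickening_closure]
    exact thick_sub hc hr hpr hε
  refine ⟨4 * A / r + (1 + 1 / r) ^ 2 * A / r, fun ε hε hε1 => ?_⟩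
  have hq : 0 < 1 + ε / r := by positivity
  rcases lt_or_ge ε r with hεr | hεr
  · have hq' : 0 < 1 - ε / r := by
      rw [sub_pos, div_lt_one hr]; exact hεr
    have h1 : thickening ε (frontier K) ⊆ hom p K (1 + ε / r) \ hom p K (1 - ε / r) := by
      intro x hx
      refine ⟨hsub ε hε hx, fun hx2 => ?_⟩
      rw [mem_thickening_iff] at hx
      obtain ⟨y, hy, hxy⟩ := hx
      have h2 := ball_sub hc hr hpr hε hεr hx2 (mem_ball'.2 hxy)
      rw [hK.frontier_eq] at hy
      exact hy.2 h2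
    have h3 : hom p K (1 - ε / r) ⊆ hom p K (1 + ε / r) := by
      intro x hx
      apply thick_sub hc hr hpr hε
      exact self_subset_thickening hε _ (ball_sub hc hr hpr hε hεr hx (mem_ball_self hε))
    have h4 : volume.real (thickening ε (frontier K)) ≤
        volume.real (hom p K (1 + ε / r) \ hom p K (1 - ε / r)) := by
      exact measureReal_mono h1 (measure_mono sdiff_subset |>.trans_lt (hom_fin hb hq)).ne
    rw [measureReal_sdiff h3 (hom_open hK _).measurableSet (hom_fin hb hq).ne,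
      hom_vol hq, hom_vol hq'] at h4
    refine h4.trans ?_
    have h5 : 0 ≤ (1 + 1 / r) ^ 2 * A / r * ε := by positivity
    have h6 : (1 + ε / r) ^ 2 * A - (1 - ε / r) ^ 2 * A = 4 * A / r * ε := by
      field_simp
      ring
    linarith
  · have h4 : volume.real (thickening ε (frontier K)) ≤ volume.real (hom p K (1 + ε / r)) :=
      measureReal_mono (hsub ε hε) (hom_fin hb hq).ne
    rw [hom_vol hq] at h4
    refine h4.trans ?_
    have h5 : (1 + ε / r) ^ 2 * A ≤ (1 + 1 / r) ^ 2 * A := by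
      gcongr
    have h6 : 1 ≤ ε / r := by rwa [le_div_iff₀ hr, one_mul]
    have h7 : (1 + 1 / r) ^ 2 * A ≤ (1 + 1 / r) ^ 2 * A * (ε / r) :=
      le_mul_of_one_le_right (by positivity) h6
    have h8 : 0 ≤ 4 * A / r * ε := by positivity
    have h9 : (1 + 1 / r) ^ 2 * A * (ε / r) = (1 + 1 / r) ^ 2 * A / r * ε := by ring
    linarith

end Q90.SF.P296

theorem Pool.Agent.Q296.SF.Mnk.mnk : Q90.SF.S_mnk := Q90.SF.P296.mnk
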