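import Mathlib
import Pool.Agent.Q90.SF.Stm

set_option autoImplicit false

open MeasureTheory Metric Set
open scoped Real

namespace Q90.SF.P296

/-- the metric projection -/
theorem exists_proj {K : Set ℂ} (hK : Convex ℝ K) (hne : K.Nonempty) :
    ∃ P : ℂ → ℂ, (∀ x, P x ∈ closure K) ∧
      ∀ x, ∀ w ∈ closure K, inner ℝ (x - P x) (w - P x) ≤ 0 := by
  have h : ∀ x : ℂ, ∃ p ∈ closure K, ∀ w ∈ closure K, inner ℝ (x - p) (w - p) ≤ 0 := by
    intro x
    obtain ⟨v, hv, hv'⟩ := exists_norm_eq_iInf_of_complete_convex hne.closure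
      isClosed_closure.isComplete hK.closure x
    exact ⟨v, hv, (norm_eq_iInf_iff_real_inner_le_zero hK.closure hv).1 hv'⟩
  choose P h1 h2 using h
  exact ⟨P, h1, h2⟩

theorem proj_lip {K : Set ℂ} {u u' v v' : ℂ} (hv : v ∈ K) (hv' : v' ∈ K)
    (h : ∀ w ∈ K, inner ℝ (u - v) (w - v) ≤ 0) (h' : ∀ w ∈ K, inner ℝ (u' - v') (w - v') ≤ 0) :
    ‖v - v'‖ ≤ ‖u - u'‖ := by
  have h1 := h v' hv'
  have h2 := h' v hv
  have h3 : ‖v - v'‖ ^ 2 ≤ inner ℝ (u - u') (v - v') := by
    rw [← real_inner_self_eq_norm_sq]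
    have e1 : inner ℝ (u - v) (v' - v) = - inner ℝ (u - v) (v - v') := by
      rw [← inner_neg_right, neg_sub]
    have e2 : inner ℝ (u - u') (v - v') = inner ℝ (u - v) (v - v') - inner ℝ (u' - v') (v - v')
        + inner ℝ (v - v') (v - v') := by
      rw [← inner_sub_left, ← inner_add_left]
      congr 1
      ring
    linarith
  have h4 := real_inner_le_norm (u - u') (v - v')
  by_contra hcon
  push Not at hcon
  have h5 : 0 ≤ ‖u - u'‖ := norm_nonneg _
  nlinarith

theorem proj_uniq {K : Set ℂ} {u v v' : ℂ} (hv : v ∈ K) (hv' : v' ∈ K)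
    (h : ∀ w ∈ K, inner ℝ (u - v) (w - v) ≤ 0) (h' : ∀ w ∈ K, inner ℝ (u - v') (w - v') ≤ 0) :
    v = v' := by
  have := proj_lip hv hv' h h'
  rw [sub_self, norm_zero] at this
  exact sub_eq_zero.1 (norm_le_zero_iff.1 this)

theorem infDist_eq {K : Set ℂ} {u v : ℂ} (hne : K.Nonempty) (hv : v ∈ closure K)
    (h : ∀ w ∈ closure K, inner ℝ (u - v) (w - v) ≤ 0) : infDist u K = ‖u - v‖ := by
  rw [← infDist_closure]
  apply le_antisymm
  · rw [← dist_eq_norm]
    exact infDist_le_dist_of_mem hv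
  · rw [le_infDist hne.closure]
    intro w hw
    rw [dist_eq_norm]
    have h1 := h w hw
    have h2 : ‖u - w‖ ^ 2 = ‖u - v‖ ^ 2 - 2 * inner ℝ (u - v) (w - v) + ‖w - v‖ ^ 2 := by
      rw [← norm_sub_sq_real]
      congr 2
      ring
    have h3 : ‖u - v‖ ^ 2 ≤ ‖u - w‖ ^ 2 := by
      have := sq_nonneg ‖w - v‖
      linarith
    exact (sq_le_sq₀ (norm_nonneg _) (norm_nonneg _)).1 h3

theorem par : Q90.SF.S_par := by
  intro K hK hne hb
  obtain ⟨P, hP1, hP2⟩ := exists_proj hK hne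
  have hlip : ∀ x y, ‖P x - P y‖ ≤ ‖x - y‖ := fun x y =>
    proj_lip (hP1 x) (hP1 y) (hP2 x) (hP2 y)
  set X : ℂ → ℂ := fun x => x - P x with hX
  have hXlip : ∀ x y, ‖X x - X y‖ ≤ 2 * ‖x - y‖ := by
    intro x y
    have : X x - X y = (x - y) - (P x - P y) := by simp only [hX]; ring
    rw [this]
    have h1 := norm_sub_le (x - y) (P x - P y)
    have h2 := hlip x y
    linarith
  have hd : ∀ (s : ℝ) (x : ℂ), dfm X s x - P x = (1 + s) • (x - P x) := by
    intro s x
    simp only [dfm, hX, Complex.real_smul]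
    push_cast
    ring
  have hPd : ∀ (s : ℝ), -1 < s → ∀ x : ℂ, P (dfm X s x) = P x := by
    intro s hs x
    apply proj_uniq (K := closure K) (hP1 _) (hP1 x) (hP2 _)
    intro w hw
    rw [hd, real_inner_smul_left]
    exact mul_nonpos_of_nonneg_of_nonpos (by linarith) (hP2 x w hw)
  have hinv : ∀ (s s' : ℝ), -1 < s → (1 + s') * (1 + s) = 1 → ∀ x : ℂ,
      dfm X s' (dfm X s x) = x := by
    intro s s' hs hss x
    have h1 := hd s' (dfm X s x)
    rw [hPd s hs, hd, smul_smul, hss, one_smul] at h1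
    exact sub_left_injective h1
  have hs' : ∀ s : ℝ, -1 < s → ∃ s' : ℝ, -1 < s' ∧ (1 + s') * (1 + s) = 1 := by
    intro s hs
    have hp : 0 < 1 + s := by linarith
    refine ⟨(1 + s)⁻¹ - 1, ?_, ?_⟩
    · have := inv_pos.2 hp
      linarith
    · field_simp
      ring
  have hsurj : ∀ s : ℝ, -1 < s → Function.Surjective (dfm X s) := by
    intro s hs y
    obtain ⟨s', h1, h2⟩ := hs' s hs
    exact ⟨dfm X s' y, hinv s' s h1 (by rw [mul_comm]; exact h2) y⟩
  have hdlip : ∀ (s : ℝ) (x y : ℂ), ‖dfm X s x - dfm X s y‖ ≤ (1 + 2 * |s|) * ‖x - y‖ := by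
    intro s x y
    have e : dfm X s x - dfm X s y = (x - y) + s • (X x - X y) := by
      simp only [dfm, smul_sub]
      ring
    rw [e]
    refine (norm_add_le _ _).trans ?_
    rw [norm_smul, Real.norm_eq_abs]
    have := mul_le_mul_of_nonneg_left (hXlip x y) (abs_nonneg s)
    linarith
  refine ⟨X, ⟨⟨2, ?_⟩, isOpen_Ioi, isPreconnected_Ioi, by norm_num, hsurj, ?_⟩, ?_⟩
  · apply LipschitzWith.of_dist_le_mul
    intro x y
    rw [dist_eq_norm, dist_eq_norm]
    exact hXlip x y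
  · intro s hs
    obtain ⟨s', h1, h2⟩ := hs' s hs
    have hpos : 0 < 1 + 2 * |s'| := by positivity
    refine ⟨(1 + 2 * |s'|)⁻¹, inv_pos.2 hpos, fun x y => ?_⟩
    have h3 := hdlip s' (dfm X s x) (dfm X s y)
    rw [hinv s s' hs h2, hinv s s' hs h2] at h3
    rw [inv_mul_le_iff₀ hpos]
    exact h3
  · intro s hs
    have hkey : ∀ x, x ∈ thickening 1 K ↔ dfm X s x ∈ thickening (1 + s) K := by
      intro x
      rw [mem_thickening_iff_infDist_lt hne, mem_thickening_iff_infDist_lt hne,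
        infDist_eq hne (hP1 x) (hP2 x), infDist_eq hne (hP1 _) (hP2 (dfm X s x)), hPd s hs, hd,
        norm_smul, Real.norm_of_nonneg (by linarith)]
      have hp : 0 < 1 + s := by linarith
      constructor
      · intro h
        nlinarith
      · intro h
        by_contra hcon
        push Not at hcon
        nlinarith
    ext y
    constructor
    · rintro ⟨x, hx, rfl⟩
      exact (hkey x).1 hx
    · intro hy
      obtain ⟨x, rfl⟩ := hsurj s hs y
      exact ⟨x, (hkey x).2 hy, rfl⟩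

end Q90.SF.P296

theorem Pool.Agent.Q296.SF.Par.par : Q90.SF.S_par := Q90.SF.P296.par
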