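import Mathlib
import Pool.Agent.Q90.SF.Stm
import Pool.Agent.Q296.SF.Par

set_option autoImplicit false

open MeasureTheory Metric Set
open scoped Real

namespace Q90.SF.P296

/-- `⟨x, e^{iθ}⟩` -/
noncomputable def ip (x : ℂ) (θ : ℝ) : ℝ := x.re * Real.cos θ + x.im * Real.sin θ

theorem normsq (x : ℂ) : ‖x‖ ^ 2 = x.re ^ 2 + x.im ^ 2 := by
  rw [← Complex.normSq_eq_norm_sq, Complex.normSq_apply]; ring

theorem ip_sq (x : ℂ) (θ : ℝ) :
    ip x θ ^ 2 + (x.re * Real.sin θ - x.im * Real.cos θ) ^ 2 = ‖x‖ ^ 2 := by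
  have h := Real.sin_sq_add_cos_sq θ
  rw [normsq, ip]
  linear_combination (x.re ^ 2 + x.im ^ 2) * h

theorem ip_abs (x : ℂ) (θ : ℝ) : |ip x θ| ≤ ‖x‖ := by
  apply abs_le_of_sq_le_sq _ (norm_nonneg _)
  have := ip_sq x θ
  have := sq_nonneg (x.re * Real.sin θ - x.im * Real.cos θ)
  linarith

theorem ip_le (x : ℂ) (θ : ℝ) : ip x θ ≤ ‖x‖ := (le_abs_self _).trans (ip_abs x θ)

theorem ip_arg (x : ℂ) : ip x x.arg = ‖x‖ := by
  have h := Real.sin_sq_add_cos_sq x.arg
  have h1 := Complex.norm_mul_cos_arg x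
  have h2 := Complex.norm_mul_sin_arg x
  unfold ip
  linear_combination ‖x‖ * h - Real.cos x.arg * h1 - Real.sin x.arg * h2

theorem cross_arg (x : ℂ) : x.re * Real.sin x.arg - x.im * Real.cos x.arg = 0 := by
  have h1 := Complex.norm_mul_cos_arg x
  have h2 := Complex.norm_mul_sin_arg x
  linear_combination -Real.sin x.arg * h1 + Real.cos x.arg * h2

theorem ip_add (x y : ℂ) (θ : ℝ) : ip (x + y) θ = ip x θ + ip y θ := by
  simp only [ip, Complex.add_re, Complex.add_im]; ring

theorem ip_sub (x y : ℂ) (θ : ℝ) : ip (x - y) θ = ip x θ - ip y θ := by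
  simp only [ip, Complex.sub_re, Complex.sub_im]; ring

theorem ip_smul (s : ℝ) (x : ℂ) (θ : ℝ) : ip (s • x) θ = s * ip x θ := by
  simp only [ip, Complex.real_smul, Complex.mul_re, Complex.mul_im, Complex.ofReal_re,
    Complex.ofReal_im]; ring

theorem supf_bdd {K : Set ℂ} {R : ℝ} (hR : ∀ x ∈ K, ‖x‖ ≤ R) (θ : ℝ) :
    BddAbove ((fun x : ℂ => ip x θ) '' K) := by
  refine ⟨R, ?_⟩
  rintro _ ⟨x, hx, rfl⟩
  exact (ip_le x θ).trans (hR x hx)

theorem supf_eq (K : Set ℂ) (θ : ℝ) : supf K θ = sSup ((fun x : ℂ => ip x θ) '' K) := rfl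

theorem le_supf {K : Set ℂ} {R : ℝ} (hR : ∀ x ∈ K, ‖x‖ ≤ R) {x : ℂ} (hx : x ∈ K) (θ : ℝ) :
    ip x θ ≤ supf K θ :=
  le_csSup (supf_bdd hR θ) (mem_image_of_mem _ hx)

theorem supf_le {K : Set ℂ} (hne : K.Nonempty) {θ c : ℝ} (h : ∀ x ∈ K, ip x θ ≤ c) :
    supf K θ ≤ c := by
  rw [supf_eq]
  apply csSup_le (hne.image _)
  rintro _ ⟨x, hx, rfl⟩
  exact h x hx

theorem exists_near {K : Set ℂ} (hne : K.Nonempty) {θ c : ℝ} (h : c < supf K θ) :
    ∃ x ∈ K, c < ip x θ := by
  rw [supf_eq] at h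
  obtain ⟨_, ⟨x, hx, rfl⟩, h2⟩ := exists_lt_of_lt_csSup (hne.image _) h
  exact ⟨x, hx, h2⟩

theorem supf_abs {K : Set ℂ} (hne : K.Nonempty) {R : ℝ} (hR : ∀ x ∈ K, ‖x‖ ≤ R) (θ : ℝ) :
    |supf K θ| ≤ R := by
  rw [abs_le]
  constructor
  · obtain ⟨x, hx⟩ := hne
    have h1 := (abs_le.1 (ip_abs x θ)).1
    have h2 := hR x hx
    have h3 := le_supf hR hx θ
    linarith
  · exact supf_le hne fun x hx => (ip_le x θ).trans (hR x hx)

theorem supf_cont {K : Set ℂ} (hne : K.Nonempty) {R : ℝ} (hR0 : 0 ≤ R)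
    (hR : ∀ x ∈ K, ‖x‖ ≤ R) : Continuous (supf K) := by
  have key : ∀ θ θ', supf K θ ≤ supf K θ' + 2 * R * dist θ θ' := by
    intro θ θ'
    apply supf_le hne
    intro x hx
    have h1 := le_supf hR hx θ'
    have h2 : ip x θ - ip x θ' ≤ 2 * R * dist θ θ' := by
      have e : ip x θ - ip x θ' = x.re * (Real.cos θ - Real.cos θ') +
          x.im * (Real.sin θ - Real.sin θ') := by
        unfold ip; ring
      rw [e]
      have hc : |Real.cos θ - Real.cos θ'| ≤ dist θ θ' := by
        have := Real.lipschitzWith_cos.dist_le_mul θ θ'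
        rw [NNReal.coe_one, one_mul, Real.dist_eq] at this
        exact this
      have hs : |Real.sin θ - Real.sin θ'| ≤ dist θ θ' := by
        have := Real.lipschitzWith_sin.dist_le_mul θ θ'
        rw [NNReal.coe_one, one_mul, Real.dist_eq] at this
        exact this
      have hre := (Complex.abs_re_le_norm x).trans (hR x hx)
      have him := (Complex.abs_im_le_norm x).trans (hR x hx)
      have h3 : x.re * (Real.cos θ - Real.cos θ') ≤ R * dist θ θ' := by
        refine (le_abs_self _).trans ?_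
        rw [abs_mul]
        gcongr
      have h4 : x.im * (Real.sin θ - Real.sin θ') ≤ R * dist θ θ' := by
        refine (le_abs_self _).trans ?_
        rw [abs_mul]
        gcongr
      linarith
    linarith
  have : LipschitzWith (Real.toNNReal (2 * R)) (supf K) := by
    apply LipschitzWith.of_dist_le_mul
    intro x y
    rw [Real.coe_toNNReal _ (by positivity), Real.dist_eq, abs_le]
    have h1 := key x y
    have h2 := key y x
    rw [dist_comm y x] at h2
    constructor <;> linarith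
  exact this.continuous

theorem supf_per (K : Set ℂ) : Function.Periodic (supf K) (2 * π) := by
  intro θ
  simp only [supf, Real.cos_add_two_pi, Real.sin_add_two_pi]

theorem mem_scl {s : ℝ} (hs : 0 < s) {K : Set ℂ} {x : ℂ} :
    x ∈ scl s K ↔ ∃ k ∈ K, s • k = x := by
  constructor
  · intro h
    exact ⟨_, h, by rw [smul_smul, mul_inv_cancel₀ hs.ne', one_smul]⟩
  · rintro ⟨k, hk, rfl⟩
    show s⁻¹ • s • k ∈ K
    rwa [smul_smul, inv_mul_cancel₀ hs.ne', one_smul]

theorem upper {K : Set ℂ} {R : ℝ} (hR : ∀ x ∈ K, ‖x‖ ≤ R) {s : ℝ} (hs : 0 < s) :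
    thickening 1 (scl s K) ⊆ starDom fun θ => 1 + s * supf K θ := by
  intro x hx
  rw [mem_thickening_iff] at hx
  obtain ⟨y, hy, hxy⟩ := hx
  obtain ⟨k, hk, rfl⟩ := (mem_scl hs).1 hy
  rw [dist_eq_norm] at hxy
  show ‖x‖ < 1 + s * supf K x.arg
  have h1 : ip x x.arg = ip (x - s • k) x.arg + s * ip k x.arg := by
    rw [ip_sub, ip_smul]; ring
  rw [← ip_arg x, h1]
  have h2 := ip_le (x - s • k) x.arg
  have h3 := mul_le_mul_of_nonneg_left (le_supf hR hk x.arg) hs.le
  linarith

theorem lower {K : Set ℂ} (hne : K.Nonempty) {R : ℝ} (hR0 : 0 < R) (hR : ∀ x ∈ K, ‖x‖ ≤ R)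
    {s : ℝ} (hs : 0 < s) (hs1 : s * R ≤ 1 / 4) (hs2 : (R ^ 2 + 2) * s ^ 2 ≤ 1 / 4) :
    (starDom fun θ => 1 + s * supf K θ - (R ^ 2 + 2) * s ^ 2) ⊆ thickening 1 (scl s K) := by
  intro x hx
  have hx' : ‖x‖ < 1 + s * supf K x.arg - (R ^ 2 + 2) * s ^ 2 := hx
  obtain ⟨k, hk, hk2⟩ := exists_near hne (show supf K x.arg - s < supf K x.arg by linarith)
  rw [mem_thickening_iff]
  refine ⟨s • k, (mem_scl hs).2 ⟨k, hk, rfl⟩, ?_⟩
  rw [dist_eq_norm]
  have h1 := ip_sq (x - s • k) x.arg
  have h2 := cross_arg x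
  have h3 : (x - s • k).re * Real.sin x.arg - (x - s • k).im * Real.cos x.arg =
      - s * (k.re * Real.sin x.arg - k.im * Real.cos x.arg) := by
    simp only [Complex.real_smul, Complex.sub_re, Complex.sub_im, Complex.mul_re, Complex.mul_im,
      Complex.ofReal_re, Complex.ofReal_im]
    linear_combination h2
  have h4 := ip_sq k x.arg
  have h5 := hR k hk
  have h6 : (k.re * Real.sin x.arg - k.im * Real.cos x.arg) ^ 2 ≤ R ^ 2 := by
    have := sq_nonneg (ip k x.arg)
    have : ‖k‖ ^ 2 ≤ R ^ 2 := by gcongr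
    linarith
  rw [h3, ip_sub, ip_smul, ip_arg] at h1
  set κ := ip k x.arg with hκ
  have hκ1 : κ ≤ R := (ip_le k x.arg).trans h5
  have h7 : ‖x‖ - s * κ < 1 - (R ^ 2 + 1) * s ^ 2 := by
    have : s * (supf K x.arg - s) < s * κ := by gcongr
    nlinarith
  have h8 : -(1 / 4) ≤ ‖x‖ - s * κ := by
    have h9 : s * κ ≤ s * R := by gcongr
    have := norm_nonneg x
    linarith
  have h10 : s ^ 2 * (k.re * Real.sin x.arg - k.im * Real.cos x.arg) ^ 2 ≤ s ^ 2 * R ^ 2 := by
    gcongr
  have h11 : s ^ 2 * R ^ 2 ≤ 1 / 16 := by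
    have : (s * R) ^ 2 ≤ (1 / 4) ^ 2 := by gcongr
    nlinarith
  have hsp : 0 < s ^ 2 := by positivity
  have h12 : ‖x - s • k‖ ^ 2 < 1 := by
    rw [← h1]
    have e : (-s * (k.re * Real.sin x.arg - k.im * Real.cos x.arg)) ^ 2 =
        s ^ 2 * (k.re * Real.sin x.arg - k.im * Real.cos x.arg) ^ 2 := by ring
    rw [e]
    rcases le_or_gt 0 (‖x‖ - s * κ) with h0 | h0
    · have h13 : (‖x‖ - s * κ) ^ 2 ≤ (1 - (R ^ 2 + 1) * s ^ 2) ^ 2 := by
        gcongr
      have h14 : (1 - (R ^ 2 + 1) * s ^ 2) ^ 2 ≤ 1 - (R ^ 2 + 1) * s ^ 2 := by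
        have h15 : 0 ≤ (R ^ 2 + 1) * s ^ 2 := by positivity
        have h16 : (R ^ 2 + 1) * s ^ 2 ≤ 1 := by nlinarith
        nlinarith
      linarith
    · have h13 : (‖x‖ - s * κ) ^ 2 ≤ 1 / 16 := by nlinarith
      linarith
  exact (sq_lt_one_iff₀ (norm_nonneg _)).1 h12

theorem disc {K : Set ℂ} (hK : IsOpen K) (hc : Convex ℝ K) (hne : K.Nonempty) {R : ℝ}
    (hR : ∀ x ∈ K, ‖x‖ ≤ R) {a b c : ℝ}
    (h : ∀ θ, supf K θ = a + b * Real.cos θ + c * Real.sin θ) :
    ∃ (p : ℂ) (r : ℝ), 0 < r ∧ K = ball p r := by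
  have hip : ∀ θ, ip ⟨b, c⟩ θ = b * Real.cos θ + c * Real.sin θ := fun θ => rfl
  have h1 : closure K = closedBall ⟨b, c⟩ a := by
    apply Subset.antisymm
    · apply closure_minimal _ isClosed_closedBall
      intro x hx
      rw [mem_closedBall, dist_eq_norm, ← ip_arg, ip_sub, hip]
      have := le_supf hR hx (x - ⟨b, c⟩).arg
      rw [h] at this
      linarith
    · intro x hx
      obtain ⟨P, hP1, hP2⟩ := exists_proj hc hne
      by_contra hcon
      have hne' : x - P x ≠ 0 := by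
        intro h0
        rw [sub_eq_zero] at h0
        rw [h0] at hcon
        exact hcon (hP1 x)
      set θ := (x - P x).arg with hθ
      have hpos : 0 < ‖x - P x‖ := norm_pos_iff.2 hne'
      have hre := Complex.norm_mul_cos_arg (x - P x)
      have him := Complex.norm_mul_sin_arg (x - P x)
      rw [← hθ] at hre him
      have h2 : supf K θ ≤ ip (P x) θ := by
        apply supf_le hne
        intro w hw
        have h3 := hP2 x w (subset_closure hw)
        have h4 : inner ℝ (x - P x) (w - P x) = ‖x - P x‖ * (ip w θ - ip (P x) θ) := by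
          rw [Complex.inner]
          simp only [Complex.mul_re, Complex.conj_re, Complex.conj_im, ip]
          simp only [Complex.sub_re w, Complex.sub_im w, ← hre, ← him]
          ring
        rw [h4] at h3
        by_contra hcon2
        push Not at hcon2
        have := mul_pos hpos (sub_pos.2 hcon2)
        linarith
      have h5 : ip (P x) θ < ip x θ := by
        have := ip_arg (x - P x)
        rw [← hθ, ip_sub] at this
        linarith
      have h6 : ip x θ ≤ supf K θ := by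
        rw [mem_closedBall, dist_eq_norm] at hx
        have := (ip_le (x - ⟨b, c⟩) θ).trans hx
        rw [ip_sub, hip] at this
        rw [h]
        linarith
      linarith
  have h2 : K = interior (closedBall (⟨b, c⟩ : ℂ) a) := by
    rw [← h1, hc.interior_closure_eq_interior_of_nonempty_interior, hK.interior_eq]
    rwa [hK.interior_eq]
  have ha : 0 < a := by
    by_contra hcon
    push Not at hcon
    rcases hcon.lt_or_eq with h3 | h3
    · rw [closedBall_eq_empty.2 h3, interior_empty] at h2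
      exact hne.ne_empty h2
    · rw [h3, closedBall_zero, interior_singleton] at h2
      exact hne.ne_empty h2
  exact ⟨⟨b, c⟩, a, ha, by rw [h2, interior_closedBall _ ha.ne']⟩

theorem sup_all : Q90.SF.S_sup := by
  intro hpol K hK hc hne hb
  obtain ⟨R, hR0, hR⟩ := hb.exists_pos_norm_le
  have hcont := supf_cont hne hR0.le hR
  refine ⟨hcont, supf_per K, ?_, fun a b c h => disc hK hc hne hR h⟩
  set M : ℝ := R ^ 2 + 2 with hM
  have hMp : 0 < M := by positivity
  refine ⟨2 + 4 * π * M, min (1 / (4 * R)) (1 / (4 * M)), by positivity, fun s hs hss => ?_⟩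
  have hs1 : s * R ≤ 1 / 4 := by
    have := hss.le.trans (min_le_left _ _)
    rw [le_div_iff₀ (by positivity)] at this
    linarith
  have hs0 : s * M ≤ 1 / 4 := by
    have := hss.le.trans (min_le_right _ _)
    rw [le_div_iff₀ (by positivity)] at this
    linarith
  have hs1' : s ≤ 1 := by
    have h2 : (2 : ℝ) ≤ M := by
      have := sq_nonneg R
      linarith
    nlinarith
  have hs2 : M * s ^ 2 ≤ 1 / 4 := by nlinarith
  have hup := upper hR hs
  have hlow := lower hne hR0 hR hs hs1 hs2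
  have habs : ∀ θ, |s * supf K θ| ≤ 1 / 4 := by
    intro θ
    rw [abs_mul, abs_of_pos hs]
    have := mul_le_mul_of_nonneg_left (supf_abs hne hR θ) hs.le
    linarith
  constructor
  · intro x hx
    have h1 : ‖x‖ < 1 + s * supf K x.arg := hup hx
    have h2 := (abs_le.1 (habs x.arg)).2
    rw [mem_ball_zero_iff]
    have : 0 < 4 * π * M := by positivity
    linarith
  · have hr1 : Continuous fun θ => 1 + s * supf K θ := by fun_prop
    have hr2 : Continuous fun θ => 1 + s * supf K θ - M * s ^ 2 := by fun_prop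
    have hn1 : ∀ θ, 0 ≤ 1 + s * supf K θ := by
      intro θ
      have := (abs_le.1 (habs θ)).1
      linarith
    have hn2 : ∀ θ, 0 ≤ 1 + s * supf K θ - M * s ^ 2 := by
      intro θ
      have := (abs_le.1 (habs θ)).1
      linarith
    have hA := hpol.2.2.2 _ _ hr1 hr2 hn1 hn2
    have hsub : symmDiff (thickening 1 (scl s K)) (starDom fun θ => 1 + s * supf K θ) ⊆
        symmDiff (starDom fun θ => 1 + s * supf K θ)
          (starDom fun θ => 1 + s * supf K θ - M * s ^ 2) := by
      rintro x (⟨h1, h2⟩ | ⟨h1, h2⟩)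
      · exact absurd (hup h1) h2
      · exact Or.inl ⟨h1, fun h3 => h2 (hlow h3)⟩
    have hfin : volume (symmDiff (starDom fun θ => 1 + s * supf K θ)
          (starDom fun θ => 1 + s * supf K θ - M * s ^ 2)) ≠ ⊤ := by
      have hb2 : symmDiff (starDom fun θ => 1 + s * supf K θ)
          (starDom fun θ => 1 + s * supf K θ - M * s ^ 2) ⊆ ball 0 2 := by
        rintro x (⟨h1, h2⟩ | ⟨h1, h2⟩)
        · have h3 : ‖x‖ < 1 + s * supf K x.arg := h1
          have h2 := (abs_le.1 (habs x.arg)).2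
          rw [mem_ball_zero_iff]
          linarith
        · have h3 : ‖x‖ < 1 + s * supf K x.arg - M * s ^ 2 := h1
          have h2 := (abs_le.1 (habs x.arg)).2
          rw [mem_ball_zero_iff]
          have : 0 ≤ M * s ^ 2 := by positivity
          linarith
      exact ((measure_mono hb2).trans_lt measure_ball_lt_top).ne
    refine (measureReal_mono hsub hfin).trans ?_
    rw [hA]
    have hpi := Real.pi_pos
    have hbound : ∀ θ, |(1 + s * supf K θ) ^ 2 - (1 + s * supf K θ - M * s ^ 2) ^ 2| / 2 ≤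
        2 * M * s ^ 2 := by
      intro θ
      have e : (1 + s * supf K θ) ^ 2 - (1 + s * supf K θ - M * s ^ 2) ^ 2 =
        M * s ^ 2 * (2 * (1 + s * supf K θ) - M * s ^ 2) := by ring
      have h2 := (abs_le.1 (habs θ)).2
      have h3 := (abs_le.1 (habs θ)).1
      have h4 : 0 ≤ M * s ^ 2 := by positivity
      rw [e, abs_of_nonneg (mul_nonneg h4 (by linarith))]
      have h5 := mul_le_mul_of_nonneg_left (show 2 * (1 + s * supf K θ) - M * s ^ 2 ≤ 4 by linarith)
        h4
      linarith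
    have h1 : ∫ θ in (-π)..π, |(1 + s * supf K θ) ^ 2 - (1 + s * supf K θ - M * s ^ 2) ^ 2| / 2 ≤
        ∫ θ in (-π)..π, 2 * M * s ^ 2 := by
      apply intervalIntegral.integral_mono_on (by linarith)
      · apply Continuous.intervalIntegrable
        fun_prop
      · exact intervalIntegrable_const
      · intro θ _
        exact hbound θ
    rw [intervalIntegral.integral_const, smul_eq_mul] at h1
    have h2 : (π - -π) * (2 * M * s ^ 2) = 4 * π * M * s ^ 2 := by ring
    have h3 : 0 ≤ s ^ 2 := sq_nonneg s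
    linarith

end Q90.SF.P296

theorem Pool.Agent.Q296.SF.Sup.sup_all : Q90.SF.S_sup := Q90.SF.P296.sup_all
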